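import Pool.Agent.H867R5.TL.Defs

set_option autoImplicit false

/-!
# Closed braids and their Vassiliev invariants

Oriented links in the three-sphere, presented as closures of braids (theorems of Alexander and
Markov).
-/

namespace Pool.Agent.H867R5.BL

open Pool.Agent.H867R5.TL

/-- the relations of the braid group on `m + 1` strands; the generator `i : Fin m` is the crossing
of the strands at the places `i` and `i + 1` -/
def rels (m : ℕ) : Set (FreeGroup (Fin m)) :=
  {r | (∃ i j : Fin m, i.val + 2 ≤ j.val ∧ r = FreeGroup.of i * FreeGroup.of j *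
      (FreeGroup.of j * FreeGroup.of i)⁻¹) ∨
    ∃ i j : Fin m, i.val + 1 = j.val ∧ r = FreeGroup.of i * FreeGroup.of j * FreeGroup.of i *
      (FreeGroup.of j * FreeGroup.of i * FreeGroup.of j)⁻¹}

/-- the element of the braid group given by a braid word -/
def br {m : ℕ} (w : List (Letter m)) : PresentedGroup (rels m) :=
  PresentedGroup.mk (rels m) (FreeGroup.mk w)

/-- A braid word on `m + 1` strands, for some `m`; it stands for the oriented link which is the
closure of the braid. -/
abbrev Link : Type := Σ m : ℕ, List (Letter m)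

/-- `v` is an invariant of oriented links: it depends on the braid only, and not on the word, and
it is unchanged by the moves of Markov. -/
structure IsInvariant (v : Link → ℤ) : Prop where
  braid : ∀ (m : ℕ) (w w' : List (Letter m)), br w = br w' → v ⟨m, w⟩ = v ⟨m, w'⟩
  conj : ∀ (m : ℕ) (u w : List (Letter m)), v ⟨m, u ++ w⟩ = v ⟨m, w ++ u⟩
  stab : ∀ (m : ℕ) (w : List (Letter m)) (s : Bool),
    v ⟨m + 1, w.map (fun x => (x.1.castSucc, x.2)) ++ [(Fin.last m, s)]⟩ = v ⟨m, w⟩

/-- The value of the extension of `v` on the closure of the singular braid `p u_1 τ_1 u_2 τ_2 ⋯ w`,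
`S = [(u_1, i_1), (u_2, i_2), …]`, `τ_j` a double point of the strands at the places `i_j` and
`i_j + 1`: crossing `(i_j, true)` minus crossing `(i_j, false)`. -/
def sing (v : Link → ℤ) {m : ℕ} : List (Letter m) → List (List (Letter m) × Fin m) →
    List (Letter m) → ℤ
  | p, [], w => v ⟨m, p ++ w⟩
  | p, t :: S, w => sing v (p ++ t.1 ++ [(t.2, true)]) S w -
      sing v (p ++ t.1 ++ [(t.2, false)]) S w

/-- `v` is a Vassiliev invariant of order at most `n` of oriented links: its extension vanishes on
all closed braids with `n + 1` double points. -/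
def IsVassiliev (n : ℕ) (v : Link → ℤ) : Prop :=
  IsInvariant v ∧ ∀ (m : ℕ) (p : List (Letter m)) (S : List (List (Letter m) × Fin m))
    (w : List (Letter m)), S.length = n + 1 → sing v p S w = 0

/-- the links `X` and `Y` are separated by an integer valued Vassiliev invariant of order at most
`d` -/
def Separated (d : ℕ) (X Y : Link) : Prop := ∃ n ≤ d, ∃ v, IsVassiliev n v ∧ v X ≠ v Y

/-- The closure of the braid `b_1 ^ n_1 b_2 ^ n_2 ⋯ b_k ^ n_k c`, where `b_1, …, b_k` are pure
braids and `c` is any braid. -/
def lattice {m k : ℕ} (c : List (Letter m)) (b : Fin k → List (List (Letter m) × Letter m))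
    (n : Fin k → ℤ) : Link :=
  ⟨m, ((List.finRange k).flatMap fun j => wpow (pureWord (b j)) (n j)) ++ c⟩

end Pool.Agent.H867R5.BL
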