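import Pool.Agent.H867R5.BL.Defs
import Pool.Agent.H867R5.TL.All

set_option autoImplicit false

namespace Pool.Agent.H867R5.BL

open Pool.Agent.H867R5.TL MvPolynomial
open scoped Pointwise

variable {m : ℕ}

/-- the function on the free group -/
def ph (v : Link → ℤ) (c : List (Letter m)) (g : FreeGroup (Fin m)) : ℤ :=
  v ⟨m, g.toWord ++ c⟩

theorem br_congr {w w' : List (Letter m)} (h : FreeGroup.mk w = FreeGroup.mk w') :
    br w = br w' := by
  unfold br; rw [h]

theorem ph_mk {v : Link → ℤ} (hv : IsInvariant v) (c w : List (Letter m)) :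
    v ⟨m, w ++ c⟩ = ph v c (FreeGroup.mk w) := by
  apply hv.braid
  apply br_congr
  rw [← FreeGroup.mul_mk, ← FreeGroup.mul_mk, FreeGroup.mk_toWord]

/-- alternating sums -/
def alG (φ : FreeGroup (Fin m) → ℤ) :
    FreeGroup (Fin m) → List (FreeGroup (Fin m) × Fin m) → FreeGroup (Fin m) → ℤ
  | h, [], g => φ (h * g)
  | h, t :: S, g => alG φ (h * t.1 * FreeGroup.of t.2) S g -
      alG φ (h * t.1 * (FreeGroup.of t.2)⁻¹) S g

theorem alG_sing {v : Link → ℤ} (hv : IsInvariant v) (c : List (Letter m))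
    (g : FreeGroup (Fin m)) (S : List (FreeGroup (Fin m) × Fin m)) :
    ∀ (h : FreeGroup (Fin m)) (p : List (Letter m)), FreeGroup.mk p = h →
      alG (ph v c) h S g = sing v p (S.map fun t => (t.1.toWord, t.2)) (g.toWord ++ c) := by
  induction S with
  | nil =>
    intro h p hp
    simp only [alG, sing, List.map_nil]
    rw [← List.append_assoc, ph_mk hv, ← FreeGroup.mul_mk, FreeGroup.mk_toWord, hp]
  | cons t S ih =>
    intro h p hp
    simp only [alG, sing, List.map_cons]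
    rw [ih _ (p ++ t.1.toWord ++ [(t.2, true)]), ih _ (p ++ t.1.toWord ++ [(t.2, false)])]
    · rw [← FreeGroup.mul_mk, ← FreeGroup.mul_mk, FreeGroup.mk_toWord, hp]
      rfl
    · rw [← FreeGroup.mul_mk, ← FreeGroup.mul_mk, FreeGroup.mk_toWord, hp]
      rfl

lemma shift (φ : FreeGroup (Fin m) → ℤ) (S : List (FreeGroup (Fin m) × Fin m))
    (g h1 : FreeGroup (Fin m)) :
    ∃ (S' : List (FreeGroup (Fin m) × Fin m)) (g' : FreeGroup (Fin m)), S'.length = S.length ∧
      ∀ y, alG φ (y * h1) S g = alG φ y S' g' := by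
  cases S with
  | nil => exact ⟨[], h1 * g, rfl, fun y => by simp only [alG, mul_assoc]⟩
  | cons t S =>
    refine ⟨(h1 * t.1, t.2) :: S, g, rfl, fun y => ?_⟩
    simp only [alG, mul_assoc]

lemma rep (φ : FreeGroup (Fin m) → ℤ) (r : ℕ) : ∀ a ∈ (gens m) ^ r,
    ∃ (S : List (FreeGroup (Fin m) × Fin m)) (g : FreeGroup (Fin m)), S.length = r ∧
      ∀ x, a φ x = alG φ x S g := by
  induction r with
  | zero =>
    intro a ha
    rw [pow_zero, Set.mem_one] at ha
    refine ⟨[], 1, rfl, fun x => ?_⟩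
    rw [ha]
    simp [alG]
  | succ r ih =>
    intro a ha
    rw [pow_succ'] at ha
    obtain ⟨b, hb, c, hc, rfl⟩ := Set.mem_mul.1 ha
    obtain ⟨S, g, hS, hSg⟩ := ih c hc
    obtain ⟨g1, h1, i, rfl⟩ := hb
    obtain ⟨S', g', hl, hS'⟩ := shift φ S g h1
    refine ⟨(g1, i) :: S', g', by rw [List.length_cons, hl, hS], fun x => ?_⟩
    have h2 : (rho m g1 * (rho m (FreeGroup.of i) - rho m (FreeGroup.of i)⁻¹) * rho m h1 * c)
        φ x = c φ (x * g1 * FreeGroup.of i * h1) -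
          c φ (x * g1 * (FreeGroup.of i)⁻¹ * h1) := rfl
    rw [h2, hSg, hSg, hS', hS']
    rfl

/-- evaluation at `φ` and `1` -/
noncomputable def evG (φ : FreeGroup (Fin m) → ℤ) :
    Module.End ℤ (FreeGroup (Fin m) → ℤ) →+ ℤ where
  toFun a := a φ 1
  map_zero' := rfl
  map_add' _ _ := rfl

theorem van (d : ℕ) (φ : FreeGroup (Fin m) → ℤ)
    (hA : ∀ (S : List (FreeGroup (Fin m) × Fin m)) (g : FreeGroup (Fin m)), S.length = d + 1 →
      alG φ 1 S g = 0) :
    ∀ a ∈ (Submodule.span ℤ (gens m)) ^ (d + 1), evG φ a = 0 := by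
  intro a ha
  rw [Submodule.span_pow] at ha
  induction ha using Submodule.span_induction with
  | mem x hx =>
    obtain ⟨S, g, hS, hSg⟩ := rep φ (d + 1) x hx
    have h1 : evG φ x = x φ 1 := rfl
    rw [h1, hSg]
    exact hA S g hS
  | zero => exact map_zero _
  | add x y _ _ hx hy => rw [map_add, hx, hy, add_zero]
  | smul c x _ hx => rw [map_zsmul, hx, smul_zero]

/-- Vassiliev invariants are polynomials on the lattices -/
theorem val (d k : ℕ) (v : Link → ℤ) (hv : IsVassiliev d v) (c : List (Letter m))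
    (b : Fin k → List (List (Letter m) × Letter m)) :
    ∃ p : MvPolynomial (Fin k) ℚ, p.totalDegree ≤ d ∧ ∀ n : Fin k → ℤ,
      MvPolynomial.eval (fun j => (n j : ℚ)) p = (v (lattice c b n) : ℚ) := by
  obtain ⟨hK1, hK2⟩ := t_KER m
  obtain ⟨a, ha⟩ := t_NEW (FreeGroup (Fin m)) (Module.End ℤ (FreeGroup (Fin m) → ℤ)) (rho m)
    (Submodule.span ℤ (gens m)) d (evG (ph v c)) k (fun j => FreeGroup.mk (pureWord (b j)))
    hK1 (fun j => hK2 (b j)) (van d (ph v c) fun S g hS => by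
      rw [alG_sing hv.1 c g S 1 [] rfl]
      exact hv.2 m _ _ _ (by rw [List.length_map, hS]))
  obtain ⟨p, hp, hp2⟩ := t_PLY k d a
  refine ⟨p, hp, fun n => ?_⟩
  rw [hp2 n, ← ha n]
  congr 1
  obtain ⟨_, h2⟩ := ULAT.t_LAT m k b n
  rw [lattice, ph_mk hv.1, h2]
  simp [evG, rho]

theorem core (k : ℕ) (X Y : (Fin k → ℤ) → Link)
    (h : ∀ (d : ℕ) (v : Link → ℤ), IsVassiliev d v → ∃ p : MvPolynomial (Fin k) ℚ,
      p.totalDegree ≤ d ∧ ∀ x : Fin k → ℤ,
        MvPolynomial.eval (fun j => (x j : ℚ)) p = (v (X x) : ℚ) - v (Y x)) :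
    ∃ N : ℕ,
      (∃ (r : ℕ) (q : Fin r → MvPolynomial (Fin k) ℚ), (∀ i, (q i).totalDegree ≤ N) ∧
        ∀ x : Fin k → ℤ, (∀ d, ¬ Separated d (X x) (Y x)) ↔
          ∀ i, MvPolynomial.eval (fun j => (x j : ℚ)) (q i) = 0) ∧
      (∀ (x : Fin k → ℤ) (d : ℕ), Separated d (X x) (Y x) → Separated N (X x) (Y x)) ∧
      (∀ d : ℕ, (∀ x : Fin k → ℤ, ¬ Separated d (X x) (Y x)) ∨
        ∀ M : ℕ, {x : Fin k → ℤ | (∀ j, |x j| ≤ M) ∧ ¬ Separated d (X x) (Y x)}.ncard ≤
          d * (2 * M + 1) ^ (k - 1)) := by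
  classical
  let I : Type 1 := ULift.{1} {vd : (Link → ℤ) × ℕ // IsVassiliev vd.2 vd.1}
  choose P hP1 hP2 using h
  let p : I → MvPolynomial (Fin k) ℚ := fun i => P i.down.1.2 i.down.1.1 i.down.2
  have hp : ∀ (i : I) (x : Fin k → ℤ), MvPolynomial.eval (fun j => (x j : ℚ)) (p i) = 0 ↔
      i.down.1.1 (X x) = i.down.1.1 (Y x) := by
    intro i x
    rw [hP2 i.down.1.2 i.down.1.1 i.down.2 x, sub_eq_zero]
    exact_mod_cast Iff.rfl
  obtain ⟨r, q, hq⟩ := t_NOE k I p (fun i => i.down.1.2)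
  let N : ℕ := Finset.univ.sup fun i : Fin r => (q i).down.1.2
  have hN : ∀ i : Fin r, (q i).down.1.2 ≤ N :=
    fun i => Finset.le_sup (f := fun i : Fin r => (q i).down.1.2) (Finset.mem_univ i)
  -- not separated at order N implies all equations
  have key : ∀ x : Fin k → ℤ, ¬ Separated N (X x) (Y x) → ∀ i : I,
      MvPolynomial.eval (fun j => (x j : ℚ)) (p i) = 0 := by
    intro x hx
    apply hq
    intro i
    rw [hp]
    by_contra hne
    exact hx ⟨(q i).down.1.2, hN i, (q i).down.1.1, (q i).down.2, hne⟩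
  have key2 : ∀ x : Fin k → ℤ, (∀ i : I, MvPolynomial.eval (fun j => (x j : ℚ)) (p i) = 0) →
      ∀ d, ¬ Separated d (X x) (Y x) := by
    rintro x hx d ⟨n, _, v, hv, hne⟩
    exact hne ((hp ⟨⟨(v, n), hv⟩⟩ x).1 (hx _))
  refine ⟨N, ⟨r, fun i => p (q i), fun i => (hP1 _ _ _).trans (hN i), fun x => ⟨?_, ?_⟩⟩, ?_, ?_⟩
  · intro hx i
    exact key x (hx N) (q i)
  · intro hx
    exact key2 x (hq _ hx)
  · intro x d hd
    by_contra hx
    exact key2 x (key x hx) d hd
  · intro d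
    by_cases h0 : ∀ x : Fin k → ℤ, ¬ Separated d (X x) (Y x)
    · exact Or.inl h0
    · right
      push Not at h0
      obtain ⟨x₀, n, hn, v, hv, hne⟩ := h0
      intro M
      have h1 : p ⟨⟨(v, n), hv⟩⟩ ≠ 0 := by
        intro h2
        apply hne
        rw [← hp ⟨⟨(v, n), hv⟩⟩ x₀, h2, map_zero]
      refine le_trans (Set.ncard_le_ncard ?_ ?_) (t_CNT k (p ⟨⟨(v, n), hv⟩⟩) d M h1
        ((hP1 _ _ _).trans hn))
      · rintro x ⟨hx1, hx2⟩
        refine ⟨hx1, ?_⟩
        rw [hp]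
        by_contra hne'
        exact hx2 ⟨n, hn, v, hv, hne'⟩
      · refine (Set.Finite.pi' (fun _ : Fin k => Set.finite_Icc (-(M : ℤ)) M)).subset ?_
        intro x hx e
        exact abs_le.1 (hx.1 e)

/-- comparison of the links of two lattices -/
theorem two (m m' k k' : ℕ) (c : List (Letter m)) (c' : List (Letter m'))
    (b : Fin k → List (List (Letter m) × Letter m))
    (b' : Fin k' → List (List (Letter m') × Letter m')) :
    ∃ N : ℕ,
      (∃ (r : ℕ) (q : Fin r → MvPolynomial (Fin (k + k')) ℚ), (∀ i, (q i).totalDegree ≤ N) ∧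
        ∀ x : Fin (k + k') → ℤ, (∀ d, ¬ Separated d (lattice c b (x ∘ Fin.castAdd k'))
          (lattice c' b' (x ∘ Fin.natAdd k))) ↔
          ∀ i, MvPolynomial.eval (fun j => (x j : ℚ)) (q i) = 0) ∧
      (∀ (x : Fin (k + k') → ℤ) (d : ℕ), Separated d (lattice c b (x ∘ Fin.castAdd k'))
        (lattice c' b' (x ∘ Fin.natAdd k)) → Separated N (lattice c b (x ∘ Fin.castAdd k'))
        (lattice c' b' (x ∘ Fin.natAdd k))) ∧
      (∀ d : ℕ, (∀ x : Fin (k + k') → ℤ, ¬ Separated d (lattice c b (x ∘ Fin.castAdd k'))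
        (lattice c' b' (x ∘ Fin.natAdd k))) ∨
        ∀ M : ℕ, {x : Fin (k + k') → ℤ | (∀ j, |x j| ≤ M) ∧
          ¬ Separated d (lattice c b (x ∘ Fin.castAdd k'))
            (lattice c' b' (x ∘ Fin.natAdd k))}.ncard ≤ d * (2 * M + 1) ^ (k + k' - 1)) := by
  refine core (k + k') (fun x => lattice c b (x ∘ Fin.castAdd k'))
    (fun x => lattice c' b' (x ∘ Fin.natAdd k)) ?_
  intro d v hv
  obtain ⟨p, hp1, hp2⟩ := val d k v hv c b
  obtain ⟨p', hp1', hp2'⟩ := val d k' v hv c' b'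
  refine ⟨rename (Fin.castAdd k') p - rename (Fin.natAdd k) p', ?_, fun x => ?_⟩
  · refine (totalDegree_sub _ _).trans (max_le ?_ ?_)
    · exact (totalDegree_rename_le _ _).trans hp1
    · exact (totalDegree_rename_le _ _).trans hp1'
  · rw [map_sub, eval_rename, eval_rename, ← hp2, ← hp2']
    rfl

end Pool.Agent.H867R5.BL
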